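import Mathlib

/-!
# Density of a periodic packing (MP_37fa12_co, lower bound side)

`X` contains the points `f i + z l` (`i ∈ ι`, `z ∈ ℤ^n`), which are different for different `(i, z)`,
and has minimal distance at least 2; then the upper density of the balls of radius one is at least
`|ι| vol(B_1) / (l_1 ⋯ l_n)`.
-/

set_option autoImplicit false

noncomputable section

open MeasureTheory Filter Topology Set
open scoped ENNReal

namespace Pool.Agent.H14LOW

variable {n : ℕ}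

/-- `ℝ^n` -/
abbrev V (n : ℕ) : Type := EuclideanSpace ℝ (Fin n)

/-- the box lattice vector `(z_1 l_1, …, z_n l_n)` -/
def bl (l : Fin n → ℝ) (z : Fin n → ℤ) : V n := WithLp.toLp 2 fun i => (z i : ℝ) * l i

@[simp] theorem bl_apply (l : Fin n → ℝ) (z : Fin n → ℤ) (i : Fin n) :
    bl l z i = (z i : ℝ) * l i := rfl

/-- the box with corner `z l` -/
def box (l : Fin n → ℝ) (z : Fin n → ℤ) : Set (V n) :=
  {x | ∀ i, x i ∈ Ico ((z i : ℝ) * l i) (((z i : ℝ) + 1) * l i)}

theorem vol_box (l : Fin n → ℝ) (hl : ∀ i, 0 < l i) (z : Fin n → ℤ) :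
    volume (box l z) = ENNReal.ofReal (∏ i, l i) := by
  have h1 : box l z = (@WithLp.ofLp 2 (Fin n → ℝ)) ⁻¹'
      (Set.pi univ fun i => Ico ((z i : ℝ) * l i) (((z i : ℝ) + 1) * l i)) := by
    ext x
    simp only [box, Set.mem_preimage, Set.mem_pi, Set.mem_univ, true_imp_iff]
    rfl
  rw [h1, (PiLp.volume_preserving_ofLp (Fin n)).measure_preimage
    (MeasurableSet.univ_pi fun i => measurableSet_Ico).nullMeasurableSet,
    Real.volume_pi_Ico, ENNReal.ofReal_prod_of_nonneg (fun i _ => (hl i).le)]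
  refine Finset.prod_congr rfl fun i _ => ?_
  congr 1
  ring

/-- the finite set of the lattice points in a ball -/
theorem exists_fin (l : Fin n → ℝ) (hl : ∀ i, 0 < l i) (r : ℝ) :
    ∃ Z : Finset (Fin n → ℤ), ∀ z, z ∈ Z ↔ ‖bl l z‖ < r := by
  classical
  have hfin : {z : Fin n → ℤ | ‖bl l z‖ < r}.Finite := by
    obtain ⟨M, hM⟩ : ∃ M : ℕ, ∀ i, r ≤ M * l i := by
      choose M hM using fun i => exists_nat_ge (r / l i)
      refine ⟨∑ i, M i, fun i => ?_⟩
      have h1 : (M i : ℝ) ≤ ((∑ i, M i : ℕ) : ℝ) := by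
        exact_mod_cast Finset.single_le_sum (f := M) (fun _ _ => Nat.zero_le _) (Finset.mem_univ i)
      have h2 : r / l i ≤ ((∑ i, M i : ℕ) : ℝ) := (hM i).trans h1
      rwa [div_le_iff₀ (hl i)] at h2
    refine Set.Finite.subset (Fintype.piFinset fun _ : Fin n => Finset.Icc (-(M : ℤ)) M).finite_toSet ?_
    intro z hz
    simp only [Finset.mem_coe, Fintype.mem_piFinset, Finset.mem_Icc]
    intro i
    have h1 : |bl l z i| ≤ ‖bl l z‖ := by
      have := PiLp.norm_apply_le (p := 2) (bl l z) i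
      simpa [Real.norm_eq_abs] using this
    have h2 : |(z i : ℝ)| * l i < M * l i := by
      have h3 : |bl l z i| = |(z i : ℝ)| * l i := by
        rw [bl_apply, abs_mul, abs_of_pos (hl i)]
      have hz' : ‖bl l z‖ < r := hz
      calc |(z i : ℝ)| * l i = |bl l z i| := h3.symm
        _ ≤ ‖bl l z‖ := h1
        _ < r := hz'
        _ ≤ M * l i := hM i
    have h4 : |(z i : ℝ)| < M := lt_of_mul_lt_mul_right h2 (hl i).le
    have h5 : |z i| < (M : ℤ) := by exact_mod_cast h4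
    have h6 := abs_lt.1 h5
    exact ⟨h6.1.le, h6.2.le⟩
  exact ⟨hfin.toFinset, fun z => by simp⟩

/-- the diameter of a box -/
def dm (l : Fin n → ℝ) : ℝ := ‖(WithLp.toLp 2 l : V n)‖

theorem floor_near (l : Fin n → ℝ) (hl : ∀ i, 0 < l i) (x : V n) :
    x ∈ box l (fun i => ⌊x i / l i⌋) ∧ ‖bl l (fun i => ⌊x i / l i⌋) - x‖ ≤ dm l := by
  have h0 : ∀ i, ((⌊x i / l i⌋ : ℤ) : ℝ) * l i ≤ x i ∧ x i < (((⌊x i / l i⌋ : ℤ) : ℝ) + 1) * l i := by
    intro i
    constructor
    · rw [← le_div_iff₀ (hl i)]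
      exact Int.floor_le _
    · rw [← div_lt_iff₀ (hl i)]
      exact Int.lt_floor_add_one _
  refine ⟨fun i => ⟨(h0 i).1, (h0 i).2⟩, ?_⟩
  rw [dm, EuclideanSpace.norm_eq, EuclideanSpace.norm_eq]
  apply Real.sqrt_le_sqrt
  refine Finset.sum_le_sum fun i _ => ?_
  have h1 := h0 i
  have h2 : (bl l (fun i => ⌊x i / l i⌋) - x) i = ((⌊x i / l i⌋ : ℤ) : ℝ) * l i - x i := rfl
  rw [h2, Real.norm_eq_abs, Real.norm_eq_abs, sq_abs, sq_abs]
  have h3 : (WithLp.toLp 2 l : V n) i = l i := rfl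
  rw [h3]
  nlinarith [hl i, h1.1, h1.2]

theorem count (l : Fin n → ℝ) (hl : ∀ i, 0 < l i) (r : ℝ) (Z : Finset (Fin n → ℤ))
    (hZ : ∀ z, z ∈ Z ↔ ‖bl l z‖ < r) :
    volume (Metric.ball (0 : V n) (r - dm l)) ≤ Z.card * ENNReal.ofReal (∏ i, l i) := by
  have h1 : Metric.ball (0 : V n) (r - dm l) ⊆ ⋃ z ∈ Z, box l z := by
    intro x hx
    have hx' : ‖x‖ < r - dm l := by simpa using hx
    obtain ⟨h2, h3⟩ := floor_near l hl x
    refine Set.mem_iUnion₂.2 ⟨fun i => ⌊x i / l i⌋, (hZ _).2 ?_, h2⟩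
    have h4 := norm_le_norm_sub_add (bl l (fun i => ⌊x i / l i⌋)) x
    linarith
  calc volume (Metric.ball (0 : V n) (r - dm l)) ≤ volume (⋃ z ∈ Z, box l z) := measure_mono h1
    _ ≤ ∑ z ∈ Z, volume (box l z) := measure_biUnion_finset_le _ _
    _ = ∑ _z ∈ Z, ENNReal.ofReal (∏ i, l i) := Finset.sum_congr rfl fun z _ => vol_box l hl z
    _ = Z.card * ENNReal.ofReal (∏ i, l i) := by rw [Finset.sum_const, nsmul_eq_mul]

/-- the union of the unit balls inside a big ball is big -/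
theorem union_ge {ι : Type*} [Fintype ι] (l : Fin n → ℝ) (hl : ∀ i, 0 < l i) (f : ι → V n)
    (X : Set (V n)) (hX : X.Pairwise (fun x y => 2 ≤ dist x y))
    (hmem : ∀ i z, f i + bl l z ∈ X)
    (hinj : ∀ i j z w, f i + bl l z = f j + bl l w → i = j ∧ z = w)
    (c : ℝ) (hc : ∀ i, ‖f i‖ ≤ c) (R : ℝ) :
    (Fintype.card ι : ℝ≥0∞) * volume (Metric.ball (0 : V n) 1) *
        volume (Metric.ball (0 : V n) (R - (c + 1 + dm l))) ≤
      ENNReal.ofReal (∏ i, l i) *
        volume ((⋃ x ∈ X, Metric.ball x 1) ∩ Metric.ball (0 : V n) R) := by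
  classical
  obtain ⟨Z, hZ⟩ := exists_fin l hl (R - (c + 1))
  have h1 := count l hl (R - (c + 1)) Z hZ
  have h2 : (⋃ p ∈ (Finset.univ : Finset ι) ×ˢ Z, Metric.ball (f p.1 + bl l p.2) (1 : ℝ)) ⊆
      (⋃ x ∈ X, Metric.ball x 1) ∩ Metric.ball (0 : V n) R := by
    intro y hy
    obtain ⟨p, hp, hy⟩ := Set.mem_iUnion₂.1 hy
    have hp2 : ‖bl l p.2‖ < R - (c + 1) := (hZ _).1 (Finset.mem_product.1 hp).2
    refine ⟨Set.mem_iUnion₂.2 ⟨_, hmem p.1 p.2, hy⟩, ?_⟩
    rw [Metric.mem_ball, dist_eq_norm] at hy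
    rw [Metric.mem_ball, dist_zero_right]
    have h3 : ‖y‖ ≤ ‖y - (f p.1 + bl l p.2)‖ + ‖f p.1 + bl l p.2‖ := by
      have := norm_add_le (y - (f p.1 + bl l p.2)) (f p.1 + bl l p.2)
      simpa using this
    have h4 : ‖f p.1 + bl l p.2‖ ≤ ‖f p.1‖ + ‖bl l p.2‖ := norm_add_le _ _
    have := hc p.1
    linarith
  have h3 : volume (⋃ p ∈ (Finset.univ : Finset ι) ×ˢ Z, Metric.ball (f p.1 + bl l p.2) (1 : ℝ)) =
      (Fintype.card ι : ℝ≥0∞) * Z.card * volume (Metric.ball (0 : V n) 1) := by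
    rw [measure_biUnion_finset]
    · simp only [Measure.addHaar_ball_center]
      rw [Finset.sum_const, Finset.card_product, nsmul_eq_mul, Finset.card_univ]
      push_cast
      ring
    · intro p hp q hq hpq
      have hne : f p.1 + bl l p.2 ≠ f q.1 + bl l q.2 := by
        intro h
        obtain ⟨h5, h6⟩ := hinj _ _ _ _ h
        exact hpq (Prod.ext h5 h6)
      have hd := hX (hmem p.1 p.2) (hmem q.1 q.2) hne
      exact Metric.ball_disjoint_ball (by linarith)
    · intro p _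
      exact measurableSet_ball
  have h4 : R - (c + 1) - dm l = R - (c + 1 + dm l) := by ring
  rw [h4] at h1
  calc (Fintype.card ι : ℝ≥0∞) * volume (Metric.ball (0 : V n) 1) *
        volume (Metric.ball (0 : V n) (R - (c + 1 + dm l)))
      ≤ (Fintype.card ι : ℝ≥0∞) * volume (Metric.ball (0 : V n) 1) *
        (Z.card * ENNReal.ofReal (∏ i, l i)) := by gcongr
    _ = ENNReal.ofReal (∏ i, l i) *
        ((Fintype.card ι : ℝ≥0∞) * Z.card * volume (Metric.ball (0 : V n) 1)) := by ring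
    _ ≤ ENNReal.ofReal (∏ i, l i) *
        volume ((⋃ x ∈ X, Metric.ball x 1) ∩ Metric.ball (0 : V n) R) := by
      rw [← h3]
      gcongr

/-- the ratio of the volumes of the balls of radius `R - C` and `R` tends to one -/
theorem ratio_tendsto (hn : 0 < n) (C : ℝ) :
    Tendsto (fun R : ℝ => volume (Metric.ball (0 : V n) (R - C)) / volume (Metric.ball (0 : V n) R))
      atTop (𝓝 1) := by
  have : Nonempty (Fin n) := ⟨⟨0, hn⟩⟩
  have hb0 : volume (Metric.ball (0 : V n) 1) ≠ 0 := (Metric.measure_ball_pos _ _ one_pos).ne'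
  have hbt : volume (Metric.ball (0 : V n) 1) ≠ ⊤ := measure_ball_lt_top.ne
  have h1 : ∀ R : ℝ, max C 0 < R →
      volume (Metric.ball (0 : V n) (R - C)) / volume (Metric.ball (0 : V n) R) =
        ENNReal.ofReal (((R - C) / R) ^ n) := by
    intro R hR
    have hR0 : 0 < R := lt_of_le_of_lt (le_max_right _ _) hR
    have hRC : 0 < R - C := by
      have := lt_of_le_of_lt (le_max_left C 0) hR
      linarith
    rw [Measure.addHaar_ball_of_pos _ _ hRC, Measure.addHaar_ball_of_pos _ _ hR0,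
      finrank_euclideanSpace_fin, ENNReal.mul_div_mul_right _ _ hb0 hbt,
      ← ENNReal.ofReal_div_of_pos (by positivity), div_pow]
  have h2 : Tendsto (fun R : ℝ => ENNReal.ofReal (((R - C) / R) ^ n)) atTop (𝓝 (ENNReal.ofReal 1)) := by
    refine (ENNReal.continuous_ofReal.tendsto _).comp ?_
    have h3 : Tendsto (fun R : ℝ => (R - C) / R) atTop (𝓝 1) := by
      have h4 : Tendsto (fun R : ℝ => 1 - C / R) atTop (𝓝 (1 - 0)) :=
        tendsto_const_nhds.sub (tendsto_const_nhds.div_atTop tendsto_id)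
      rw [sub_zero] at h4
      refine h4.congr' ?_
      filter_upwards [eventually_gt_atTop 0] with R hR
      field_simp
    simpa using h3.pow n
  rw [ENNReal.ofReal_one] at h2
  refine h2.congr' ?_
  filter_upwards [eventually_gt_atTop (max C 0)] with R hR
  exact (h1 R hR).symm

/-- **DENS** -/
theorem dens {ι : Type*} [Fintype ι] (hn : 0 < n) (l : Fin n → ℝ) (hl : ∀ i, 0 < l i) (f : ι → V n)
    (X : Set (V n)) (hX : X.Pairwise (fun x y => 2 ≤ dist x y))
    (hmem : ∀ i z, f i + bl l z ∈ X)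
    (hinj : ∀ i j z w, f i + bl l z = f j + bl l w → i = j ∧ z = w) :
    ENNReal.ofReal ((Fintype.card ι : ℝ) / ∏ i, l i) * volume (Metric.ball (0 : V n) 1) ≤
      Filter.limsup (fun R : ℝ =>
        volume ((⋃ x ∈ X, Metric.ball x 1) ∩ Metric.ball (0 : V n) R) /
          volume (Metric.ball (0 : V n) R)) atTop := by
  have : Nonempty (Fin n) := ⟨⟨0, hn⟩⟩
  obtain ⟨c, hc⟩ : ∃ c : ℝ, ∀ i, ‖f i‖ ≤ c :=
    ⟨∑ i, ‖f i‖, fun i => Finset.single_le_sum (f := fun i => ‖f i‖) (fun _ _ => norm_nonneg _)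
      (Finset.mem_univ i)⟩
  have hP : 0 < ∏ i, l i := Finset.prod_pos fun i _ => hl i
  set a : ℝ≥0∞ := ENNReal.ofReal ((Fintype.card ι : ℝ) / ∏ i, l i) *
    volume (Metric.ball (0 : V n) 1) with ha
  have hat : a ≠ ⊤ := ENNReal.mul_ne_top ENNReal.ofReal_ne_top measure_ball_lt_top.ne
  have h1 : ∀ R : ℝ, a * (volume (Metric.ball (0 : V n) (R - (c + 1 + dm l))) /
      volume (Metric.ball (0 : V n) R)) ≤
        volume ((⋃ x ∈ X, Metric.ball x 1) ∩ Metric.ball (0 : V n) R) /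
          volume (Metric.ball (0 : V n) R) := by
    intro R
    have h2 := union_ge l hl f X hX hmem hinj c hc R
    rw [← mul_div_assoc]
    refine ENNReal.div_le_div_right ?_ _
    have h3 : a * ENNReal.ofReal (∏ i, l i) =
        (Fintype.card ι : ℝ≥0∞) * volume (Metric.ball (0 : V n) 1) := by
      rw [ha, mul_right_comm, ← ENNReal.ofReal_mul (by positivity), div_mul_cancel₀ _ hP.ne',
        ENNReal.ofReal_natCast]
    have h4 : ENNReal.ofReal (∏ i, l i) ≠ 0 := by
      rw [Ne, ENNReal.ofReal_eq_zero, not_le]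
      exact hP
    have h5 : ENNReal.ofReal (∏ i, l i) ≠ ⊤ := ENNReal.ofReal_ne_top
    rw [← h3] at h2
    have h6 : ENNReal.ofReal (∏ i, l i) * (a * volume (Metric.ball (0 : V n) (R - (c + 1 + dm l)))) ≤
        ENNReal.ofReal (∏ i, l i) *
          volume ((⋃ x ∈ X, Metric.ball x 1) ∩ Metric.ball (0 : V n) R) := by
      calc _ = a * ENNReal.ofReal (∏ i, l i) *
            volume (Metric.ball (0 : V n) (R - (c + 1 + dm l))) := by ring
        _ ≤ _ := h2
    exact (ENNReal.mul_le_mul_iff_right h4 h5).1 h6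
  have h2 : Tendsto (fun R : ℝ => a * (volume (Metric.ball (0 : V n) (R - (c + 1 + dm l))) /
      volume (Metric.ball (0 : V n) R))) atTop (𝓝 (a * 1)) :=
    ENNReal.Tendsto.const_mul (ratio_tendsto hn _) (Or.inr hat)
  rw [mul_one] at h2
  calc a = limsup (fun R : ℝ => a * (volume (Metric.ball (0 : V n) (R - (c + 1 + dm l))) /
      volume (Metric.ball (0 : V n) R))) atTop := h2.limsup_eq.symm
    _ ≤ _ := limsup_le_limsup (Eventually.of_forall h1)

end Pool.Agent.H14LOW
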