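import Mathlib

/-!
# The extended binary Golay code (MP_37fa12_co, lower bound side, n = 22)
-/

set_option autoImplicit false

namespace Pool.Agent.H14LOW

/-- the code word with the information bits `b0, …, b11` (bit `i` of the number is coordinate `i`) -/
def cw12 (b0 b1 b2 b3 b4 b5 b6 b7 b8 b9 b10 b11 : Bool) : ℕ :=
  (bif b0 then 11415553 else 0) ^^^ ((bif b1 then 14442498 else 0) ^^^
  ((bif b2 then 1503236 else 0) ^^^ ((bif b3 then 3006472 else 0) ^^^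
  ((bif b4 then 6012944 else 0) ^^^ ((bif b5 then 10072096 else 0) ^^^
  ((bif b6 then 11755584 else 0) ^^^ ((bif b7 then 15122560 else 0) ^^^
  ((bif b8 then 6533376 else 0) ^^^ ((bif b9 then 15290880 else 0) ^^^
  ((bif b10 then 8164352 else 0) ^^^ (bif b11 then 14096384 else 0)))))))))))

/-- the weight of a word of length 24 -/
def wt (w : ℕ) : ℕ := (Finset.univ.filter fun i : Fin 24 => w.testBit i = true).card

theorem cw12_wt : ∀ b0 b1 b2 b3 b4 b5 b6 b7 b8 b9 b10 b11 : Bool,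
    wt (cw12 b0 b1 b2 b3 b4 b5 b6 b7 b8 b9 b10 b11) % 4 = 0 ∧
    (cw12 b0 b1 b2 b3 b4 b5 b6 b7 b8 b9 b10 b11 = 0 ∨
      8 ≤ wt (cw12 b0 b1 b2 b3 b4 b5 b6 b7 b8 b9 b10 b11)) := by
  decide +kernel

theorem cw12_sys : ∀ b0 b1 b2 b3 b4 b5 b6 b7 b8 b9 b10 b11 : Bool,
    (cw12 b0 b1 b2 b3 b4 b5 b6 b7 b8 b9 b10 b11).testBit 0 = b0 ∧
    (cw12 b0 b1 b2 b3 b4 b5 b6 b7 b8 b9 b10 b11).testBit 1 = b1 ∧
    (cw12 b0 b1 b2 b3 b4 b5 b6 b7 b8 b9 b10 b11).testBit 2 = b2 ∧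
    (cw12 b0 b1 b2 b3 b4 b5 b6 b7 b8 b9 b10 b11).testBit 3 = b3 ∧
    (cw12 b0 b1 b2 b3 b4 b5 b6 b7 b8 b9 b10 b11).testBit 4 = b4 ∧
    (cw12 b0 b1 b2 b3 b4 b5 b6 b7 b8 b9 b10 b11).testBit 5 = b5 ∧
    (cw12 b0 b1 b2 b3 b4 b5 b6 b7 b8 b9 b10 b11).testBit 6 = b6 ∧
    (cw12 b0 b1 b2 b3 b4 b5 b6 b7 b8 b9 b10 b11).testBit 7 = b7 ∧
    (cw12 b0 b1 b2 b3 b4 b5 b6 b7 b8 b9 b10 b11).testBit 8 = b8 ∧
    (cw12 b0 b1 b2 b3 b4 b5 b6 b7 b8 b9 b10 b11).testBit 9 = b9 ∧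
    (cw12 b0 b1 b2 b3 b4 b5 b6 b7 b8 b9 b10 b11).testBit 10 = b10 ∧
    (cw12 b0 b1 b2 b3 b4 b5 b6 b7 b8 b9 b10 b11).testBit 11 = b11 := by
  decide +kernel

/-- the code word of `u` -/
def cw (u : Fin 12 → Bool) : ℕ :=
  cw12 (u 0) (u 1) (u 2) (u 3) (u 4) (u 5) (u 6) (u 7) (u 8) (u 9) (u 10) (u 11)

theorem cw_wt (u : Fin 12 → Bool) : wt (cw u) % 4 = 0 ∧ (cw u = 0 ∨ 8 ≤ wt (cw u)) :=
  cw12_wt _ _ _ _ _ _ _ _ _ _ _ _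

theorem cw_sys (u : Fin 12 → Bool) (i : Fin 12) : (cw u).testBit i = u i := by
  obtain ⟨h0, h1, h2, h3, h4, h5, h6, h7, h8, h9, h10, h11⟩ :=
    cw12_sys (u 0) (u 1) (u 2) (u 3) (u 4) (u 5) (u 6) (u 7) (u 8) (u 9) (u 10) (u 11)
  fin_cases i
  exacts [h0, h1, h2, h3, h4, h5, h6, h7, h8, h9, h10, h11]

theorem bif_xor (a b : Bool) (r : ℕ) :
    (bif (a ^^ b) then r else 0) = (bif a then r else 0) ^^^ (bif b then r else 0) := by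
  cases a <;> cases b <;> simp

theorem cw_xor (u v : Fin 12 → Bool) : cw (fun j => u j ^^ v j) = cw u ^^^ cw v := by
  simp only [cw, cw12, bif_xor]
  ac_rfl

end Pool.Agent.H14LOW
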