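import Pool.Agent.Helper14_LOW.Golay

/-!
# The minimum of the Leech lattice (scaled by `√8`)
-/

set_option autoImplicit false

namespace Pool.Agent.H14LOW

/-- bit `i` of `w` as an integer -/
def bi (w : ℕ) (i : Fin 24) : ℤ := if w.testBit i then 1 else 0

theorem bi_xor (a b : ℕ) (i : Fin 24) : (bi a i - bi b i - bi (a ^^^ b) i) % 2 = 0 := by
  unfold bi
  rw [Nat.testBit_xor]
  cases a.testBit i <;> cases b.testBit i <;> simp

theorem bi_01 (w : ℕ) (i : Fin 24) : bi w i = 0 ∨ bi w i = 1 := by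
  unfold bi
  split_ifs
  · exact Or.inr rfl
  · exact Or.inl rfl

theorem sum_bi (w : ℕ) : ∑ i, bi w i = (wt w : ℤ) := by
  unfold bi wt
  rw [Finset.sum_boole]

/-- `x` is in the Leech lattice scaled by `√8`: parity `m ∈ {0,1}`, code word of `u` -/
def IsL (x : Fin 24 → ℤ) (m : ℤ) (u : Fin 12 → Bool) : Prop :=
  (∀ i, (x i - m - 2 * bi (cw u) i) % 4 = 0) ∧ (∑ i, x i - 4 * m) % 8 = 0

theorem evenL (d : Fin 24 → ℤ) (u : Fin 12 → Bool) (h : ∀ i, (d i - 2 * bi (cw u) i) % 4 = 0)
    (hs : (∑ i, d i) % 8 = 0) (hd : ∃ i, d i ≠ 0) : 32 ≤ ∑ i, d i ^ 2 := by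
  rcases (cw_wt u).2 with h0 | h8
  · have h4 : ∀ i, d i % 4 = 0 := by
      intro i
      have h1 := h i
      have h2 : bi (cw u) i = 0 := by
        rw [h0]
        unfold bi
        simp
      rw [h2] at h1
      omega
    obtain ⟨i0, hi0⟩ := hd
    have h5 : 16 ≤ d i0 ^ 2 := by
      obtain ⟨k, hk⟩ : ∃ k, d i0 = 4 * k := ⟨d i0 / 4, by have := h4 i0; omega⟩
      have hk0 : k ≠ 0 := by
        rintro rfl
        exact hi0 (by simpa using hk)
      have h6 := Int.one_le_abs hk0
      rw [hk]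
      nlinarith [sq_abs k, abs_nonneg k]
    have h6 : 16 ≤ ∑ i, d i ^ 2 :=
      h5.trans (Finset.single_le_sum (f := fun i => d i ^ 2) (fun i _ => sq_nonneg _)
        (Finset.mem_univ i0))
    have h7 : (32 : ℤ) ∣ ∑ i, (d i ^ 2 - 4 * d i) := by
      refine Finset.dvd_sum fun i _ => ?_
      obtain ⟨k, hk⟩ : ∃ k, d i = 4 * k := ⟨d i / 4, by have := h4 i; omega⟩
      rw [hk]
      obtain ⟨j, hj⟩ : ∃ j, k * (k - 1) = 2 * j := by
        have := Int.even_mul_pred_self k
        obtain ⟨j, hj⟩ := this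
        exact ⟨j, by linarith⟩
      exact ⟨j, by linear_combination 16 * hj⟩
    rw [Finset.sum_sub_distrib, ← Finset.mul_sum] at h7
    omega
  · have h1 : ∀ i ∈ (Finset.univ.filter fun i : Fin 24 => (cw u).testBit i = true),
        (4 : ℤ) ≤ d i ^ 2 := by
      intro i hi
      have h2 : bi (cw u) i = 1 := by
        unfold bi
        rw [if_pos (Finset.mem_filter.1 hi).2]
      have h3 := h i
      rw [h2] at h3
      obtain ⟨k, hk⟩ : ∃ k, d i = 4 * k + 2 := ⟨(d i - 2) / 4, by omega⟩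
      rw [hk]
      nlinarith [Int.even_mul_succ_self k, mul_self_nonneg (2 * k + 1), sq_nonneg k,
        (show 0 ≤ k * (k + 1) by
          rcases le_or_gt 0 k with hk0 | hk0
          · positivity
          · nlinarith)]
    calc (32 : ℤ) ≤ (wt (cw u) : ℤ) * 4 := by
          have : (8 : ℤ) ≤ wt (cw u) := by exact_mod_cast h8
          linarith
      _ = ∑ i ∈ (Finset.univ.filter fun i : Fin 24 => (cw u).testBit i = true), (4 : ℤ) := by
          rw [Finset.sum_const, nsmul_eq_mul]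
          rfl
      _ ≤ ∑ i ∈ (Finset.univ.filter fun i : Fin 24 => (cw u).testBit i = true), d i ^ 2 :=
          Finset.sum_le_sum h1
      _ ≤ ∑ i, d i ^ 2 := Finset.sum_le_sum_of_subset_of_nonneg (Finset.filter_subset _ _)
          fun i _ _ => sq_nonneg _

theorem oddL (d : Fin 24 → ℤ) (u : Fin 12 → Bool) (h : ∀ i, (d i - 1 - 2 * bi (cw u) i) % 4 = 0)
    (hs : (∑ i, d i - 4) % 8 = 0) : 32 ≤ ∑ i, d i ^ 2 := by
  have h1 : ∀ i, 1 ≤ d i ^ 2 := by
    intro i
    have h2 : d i ≠ 0 := by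
      intro h0
      have h3 := h i
      rcases bi_01 (cw u) i with hb | hb <;> rw [hb, h0] at h3 <;> omega
    have h3 := Int.one_le_abs h2
    nlinarith [sq_abs (d i), abs_nonneg (d i)]
  by_cases hbig : ∃ i, 9 ≤ d i ^ 2
  · obtain ⟨i0, hi0⟩ := hbig
    have h2 : 8 ≤ ∑ i, (d i ^ 2 - 1) := by
      refine le_trans ?_ (Finset.single_le_sum (f := fun i => d i ^ 2 - 1)
        (fun i _ => by have := h1 i; linarith) (Finset.mem_univ i0))
      linarith
    rw [Finset.sum_sub_distrib, Finset.sum_const, Finset.card_univ, Fintype.card_fin] at h2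
    simp only [nsmul_eq_mul, Nat.cast_ofNat, mul_one] at h2
    linarith
  · push Not at hbig
    exfalso
    have h2 : ∀ i, d i = 1 - 2 * bi (cw u) i := by
      intro i
      have h3 : |d i| < 3 := by
        have := hbig i
        by_contra hc
        push Not at hc
        nlinarith [sq_abs (d i)]
      have h4 := abs_lt.1 h3
      have h5 := h i
      rcases bi_01 (cw u) i with hb | hb <;> rw [hb] at h5 ⊢ <;> omega
    have h3 : ∑ i, d i = 24 - 2 * (wt (cw u) : ℤ) := by
      rw [← sum_bi, Finset.sum_congr rfl fun i _ => h2 i, Finset.sum_sub_distrib,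
        ← Finset.mul_sum, Finset.sum_const, Finset.card_univ, Fintype.card_fin]
      simp
    have h4 := (cw_wt u).1
    rw [h3] at hs
    omega

/-- the minimum of the Leech lattice -/
theorem leech_min (x y : Fin 24 → ℤ) (m m' : ℤ) (hm : m = 0 ∨ m = 1) (hm' : m' = 0 ∨ m' = 1)
    (u u' : Fin 12 → Bool) (hx : IsL x m u) (hy : IsL y m' u') (hne : x ≠ y) :
    32 ≤ ∑ i, (x i - y i) ^ 2 := by
  obtain ⟨hx1, hx2⟩ := hx
  obtain ⟨hy1, hy2⟩ := hy
  have hsum : ∑ i, (x i - y i) = ∑ i, x i - ∑ i, y i := Finset.sum_sub_distrib ..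
  have hsum' : ∑ i, (y i - x i) = ∑ i, y i - ∑ i, x i := Finset.sum_sub_distrib ..
  have hxor : ∀ i, (bi (cw u) i - bi (cw u') i - bi (cw fun j => u j ^^ u' j) i) % 2 = 0 := by
    intro i
    rw [cw_xor]
    exact bi_xor _ _ i
  have hxor' : ∀ i, (bi (cw u') i - bi (cw u) i - bi (cw fun j => u' j ^^ u j) i) % 2 = 0 := by
    intro i
    rw [cw_xor]
    exact bi_xor _ _ i
  obtain ⟨i0, hi0⟩ := Function.ne_iff.1 hne
  rcases hm with rfl | rfl <;> rcases hm' with rfl | rfl
  · refine evenL (fun i => x i - y i) (fun j => u j ^^ u' j) (fun i => ?_) ?_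
      ⟨i0, sub_ne_zero.2 hi0⟩
    · have h1 := hx1 i
      have h2 := hy1 i
      have h3 := hxor i
      omega
    · rw [hsum]
      omega
  · have h0 : ∑ i, (x i - y i) ^ 2 = ∑ i, (y i - x i) ^ 2 :=
      Finset.sum_congr rfl fun i _ => by ring
    rw [h0]
    refine oddL (fun i => y i - x i) (fun j => u' j ^^ u j) (fun i => ?_) ?_
    · have h1 := hx1 i
      have h2 := hy1 i
      have h3 := hxor' i
      omega
    · rw [hsum']
      omega
  · refine oddL (fun i => x i - y i) (fun j => u j ^^ u' j) (fun i => ?_) ?_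
    · have h1 := hx1 i
      have h2 := hy1 i
      have h3 := hxor i
      omega
    · rw [hsum]
      omega
  · refine evenL (fun i => x i - y i) (fun j => u j ^^ u' j) (fun i => ?_) ?_
      ⟨i0, sub_ne_zero.2 hi0⟩
    · have h1 := hx1 i
      have h2 := hy1 i
      have h3 := hxor i
      omega
    · rw [hsum]
      omega

end Pool.Agent.H14LOW
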