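import Pool.Agent.Helper14_LOW.Dens

/-!
# The packing P10c (MP_37fa12_co, lower bound side, n = 10)

Construction A on the Best code (40 words of length 10, distance 4): centre density 40/1024 = 5/128.
-/

set_option autoImplicit false

noncomputable section

open MeasureTheory Filter Topology Set
open scoped ENNReal

namespace Pool.Agent.H14LOW

/-- the Best code -/
def best : List ℕ :=
  [22, 41, 88, 103, 155, 164, 213, 234, 266, 309, 333, 339, 352, 382, 385, 412, 431, 434, 454, 505,
   517, 570, 578, 607, 620, 625, 654, 656, 675, 701, 713, 758, 793, 806, 852, 875, 919, 936, 986,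
   997]

/-- the words of the Best code -/
def word (j : Fin 40) : ℕ := best.getD j 0

theorem best_dist : ∀ j k : Fin 40, j ≠ k →
    4 ≤ (Finset.univ.filter fun i : Fin 10 => (word j).testBit i ≠ (word k).testBit i).card := by
  decide +kernel

/-- the representatives -/
def f10 (j : Fin 40) : V 10 := WithLp.toLp 2 fun i => if (word j).testBit i then 1 else 0

theorem f10_apply (j : Fin 40) (i : Fin 10) :
    f10 j i = if (word j).testBit i then 1 else 0 := rfl

/-- the centres of P10c -/
def X10 : Set (V 10) := {x | ∃ j z, x = f10 j + bl (fun _ => 2) z}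

/-- coordinate `i` of the difference -/
def dd (j k : Fin 40) (z w : Fin 10 → ℤ) (i : Fin 10) : ℤ :=
  (if (word j).testBit i then 1 else 0) - (if (word k).testBit i then 1 else 0) + 2 * (z i - w i)

theorem diff_apply (j k : Fin 40) (z w : Fin 10 → ℤ) (i : Fin 10) :
    (f10 j + bl (fun _ => 2) z - (f10 k + bl (fun _ => 2) w)) i = (dd j k z w i : ℝ) := by
  have h1 : (f10 j + bl (fun _ => 2) z - (f10 k + bl (fun _ => 2) w)) i =
    f10 j i + (z i : ℝ) * 2 - (f10 k i + (w i : ℝ) * 2) := rfl
  rw [h1, f10_apply, f10_apply, dd]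
  split_ifs <;> push_cast <;> ring

theorem dd_ne (j k : Fin 40) (z w : Fin 10 → ℤ) (i : Fin 10)
    (hb : (word j).testBit i ≠ (word k).testBit i) : 1 ≤ (dd j k z w i) ^ 2 := by
  have h4 : dd j k z w i ≠ 0 := by
    unfold dd
    cases hj : (word j).testBit i <;> cases hk : (word k).testBit i
    · exact absurd (hj.trans hk.symm) hb
    · simp
      omega
    · simp
      omega
    · exact absurd (hj.trans hk.symm) hb
  have h5 := Int.one_le_abs h4
  nlinarith [sq_abs (dd j k z w i), abs_nonneg (dd j k z w i)]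

theorem dd_self (j : Fin 40) (z w : Fin 10 → ℤ) (i : Fin 10) (h : z i ≠ w i) :
    4 ≤ (dd j j z w i) ^ 2 := by
  have h1 : dd j j z w i = 2 * (z i - w i) := by
    unfold dd
    ring
  have h3 : z i - w i ≠ 0 := sub_ne_zero.2 h
  have h4 := Int.one_le_abs h3
  rw [h1]
  nlinarith [sq_abs (z i - w i), abs_nonneg (z i - w i)]

theorem sum_dd (j k : Fin 40) (z w : Fin 10 → ℤ) (h : ¬ (j = k ∧ z = w)) :
    4 ≤ ∑ i, (dd j k z w i) ^ 2 := by
  by_cases hjk : j = k
  · subst hjk
    have hzw : z ≠ w := fun e => h ⟨rfl, e⟩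
    obtain ⟨i, hi⟩ := Function.ne_iff.1 hzw
    exact (dd_self j z w i hi).trans (Finset.single_le_sum
      (f := fun i => (dd j j z w i) ^ 2) (fun i _ => sq_nonneg _) (Finset.mem_univ i))
  · have h1 := best_dist j k hjk
    calc (4 : ℤ) ≤ ((Finset.univ.filter fun i : Fin 10 =>
          (word j).testBit i ≠ (word k).testBit i).card : ℤ) := by exact_mod_cast h1
      _ = ∑ i ∈ (Finset.univ.filter fun i : Fin 10 =>
          (word j).testBit i ≠ (word k).testBit i), 1 := by simp
      _ ≤ ∑ i ∈ (Finset.univ.filter fun i : Fin 10 =>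
          (word j).testBit i ≠ (word k).testBit i), (dd j k z w i) ^ 2 :=
        Finset.sum_le_sum fun i hi => dd_ne j k z w i (Finset.mem_filter.1 hi).2
      _ ≤ ∑ i, (dd j k z w i) ^ 2 :=
        Finset.sum_le_sum_of_subset_of_nonneg (Finset.filter_subset _ _)
          fun i _ _ => sq_nonneg _

theorem sep10 (j k : Fin 40) (z w : Fin 10 → ℤ) (h : ¬ (j = k ∧ z = w)) :
    2 ≤ ‖f10 j + bl (fun _ => 2) z - (f10 k + bl (fun _ => 2) w)‖ := by
  have hsq : ‖f10 j + bl (fun _ => 2) z - (f10 k + bl (fun _ => 2) w)‖ ^ 2 =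
      ((∑ i, (dd j k z w i) ^ 2 : ℤ) : ℝ) := by
    rw [EuclideanSpace.norm_sq_eq]
    push_cast
    refine Finset.sum_congr rfl fun i _ => ?_
    rw [diff_apply, Real.norm_eq_abs, sq_abs]
  have h1 := sum_dd j k z w h
  have h2 : (4 : ℝ) ≤ ((∑ i, (dd j k z w i) ^ 2 : ℤ) : ℝ) := by exact_mod_cast h1
  rw [← hsq] at h2
  have h0 := norm_nonneg (f10 j + bl (fun _ => 2) z - (f10 k + bl (fun _ => 2) w))
  have key' : (2 : ℝ) ^ 2 ≤ ‖f10 j + bl (fun _ => 2) z - (f10 k + bl (fun _ => 2) w)‖ ^ 2 := by
    norm_num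
    exact h2
  exact (pow_le_pow_iff_left₀ (by norm_num) h0 two_ne_zero).1 key'

/-- the lower bound for `n = 10`: a packing with centre density 5/128 -/
theorem low10 : ∃ X : Set (V 10), X.Pairwise (fun x y => 2 ≤ dist x y) ∧
    ENNReal.ofReal (5 / 128) * volume (Metric.ball (0 : V 10) 1) ≤
      Filter.limsup (fun R : ℝ =>
        volume ((⋃ x ∈ X, Metric.ball x 1) ∩ Metric.ball (0 : V 10) R) /
          volume (Metric.ball (0 : V 10) R)) atTop := by
  refine ⟨X10, ?_, ?_⟩
  · rintro x ⟨j, z, rfl⟩ y ⟨k, w, rfl⟩ hne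
    rw [dist_eq_norm]
    refine sep10 j k z w ?_
    rintro ⟨rfl, rfl⟩
    exact hne rfl
  · have h := dens (n := 10) (ι := Fin 40) (by norm_num) (fun _ => 2) (fun _ => by norm_num) f10 X10
      (by
        rintro x ⟨j, z, rfl⟩ y ⟨k, w, rfl⟩ hne
        rw [dist_eq_norm]
        refine sep10 j k z w ?_
        rintro ⟨rfl, rfl⟩
        exact hne rfl)
      (fun j z => ⟨j, z, rfl⟩)
      (by
        intro j k z w he
        by_contra hcon
        have h1 := sep10 j k z w hcon
        rw [he, sub_self, norm_zero] at h1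
        norm_num at h1)
    have h2 : ((Fintype.card (Fin 40) : ℝ) / ∏ _i : Fin 10, (2 : ℝ)) = 5 / 128 := by
      rw [Fintype.card_fin, Finset.prod_const, Finset.card_univ, Fintype.card_fin]
      norm_num
    rw [h2] at h
    exact h

/-- the supremum of S08123 over all packings of `ℝ^10` is at least the density of P10c -/
theorem low10_sup : ENNReal.ofReal (5 / 128) * volume (Metric.ball (0 : V 10) 1) ≤
    ⨆ (X : Set (V 10)) (_ : X.Pairwise (fun x y => 2 ≤ dist x y)),
          Filter.limsup (fun R : ℝ =>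
            volume ((⋃ x ∈ X, Metric.ball x 1) ∩ Metric.ball (0 : V 10) R) /
              volume (Metric.ball (0 : V 10) R)) atTop := by
  obtain ⟨X, h1, h2⟩ := low10
  exact h2.trans (le_iSup₂_of_le X h1 le_rfl)

end Pool.Agent.H14LOW
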