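import Pool.Agent.Helper14_LOW.Dens
import Pool.Agent.Helper14_LOW.Leech

/-!
# The packing P22 (MP_37fa12_co, lower bound side, n = 22)

Projection to the orthogonal complement of `(1,1,0,…), (1,0,1,0,…)` of the vectors `x` of the Leech
lattice (scaled by `√8`) with `(x_0+x_1, x_0+x_2) ∈ {(0,0), (2,0), (2,2)}`; minimal squared distance
`88/3`, scaled to 4.
-/

set_option autoImplicit false

noncomputable section

open MeasureTheory Filter Topology Set
open scoped ENNReal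

namespace Pool.Agent.H14LOW

/-- coordinate `k + 2` for `k : Fin 22` -/
def up (k : Fin 22) : Fin 24 := ⟨k + 2, by omega⟩

/-- the projection (scaled) -/
def pr (x : Fin 24 → ℤ) : V 22 := WithLp.toLp 2 fun k =>
  if k = 0 then ((x 0 - x 1 - x 2 : ℤ) : ℝ) * (1 / √22) else (x (up k) : ℝ) * √(3 / 22)

theorem pr_zero (x : Fin 24 → ℤ) : pr x 0 = ((x 0 - x 1 - x 2 : ℤ) : ℝ) * (1 / √22) := rfl

theorem pr_succ (x : Fin 24 → ℤ) (k : Fin 21) :
    pr x k.succ = (x (up k.succ) : ℝ) * √(3 / 22) := by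
  have : pr x k.succ = if k.succ = 0 then ((x 0 - x 1 - x 2 : ℤ) : ℝ) * (1 / √22) else
    (x (up k.succ) : ℝ) * √(3 / 22) := rfl
  rw [this, if_neg (Fin.succ_ne_zero k)]

/-- the admissible values of `(x_0+x_1, x_0+x_2)` -/
def sA (s : Fin 3) : ℤ := ![0, 2, 2] s

/-- the admissible values of `(x_0+x_1, x_0+x_2)` -/
def sB (s : Fin 3) : ℤ := ![0, 0, 2] s

/-- the lifts -/
def Lft (x : Fin 24 → ℤ) : Prop :=
  (∃ m u, (m = 0 ∨ m = 1) ∧ IsL x m u) ∧ ∃ s, x 0 + x 1 = sA s ∧ x 0 + x 2 = sB s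

theorem sum24 (f : Fin 24 → ℤ) :
    ∑ i, f i = f 0 + f 1 + f 2 + ∑ k : Fin 21, f (up k.succ) := by
  rw [Fin.sum_univ_succ, Fin.sum_univ_succ, Fin.sum_univ_succ]
  have h1 : ∀ k : Fin 21, (k.succ.succ.succ : Fin 24) = up k.succ := by
    intro k
    ext
    simp [up]
  simp only [h1]
  have h2 : (Fin.succ 0 : Fin 24) = 1 := rfl
  have h3 : (Fin.succ (Fin.succ 0) : Fin 24) = 2 := rfl
  rw [h2, h3]
  ring

theorem norm_pr (x y : Fin 24 → ℤ) :
    22 * ‖pr x - pr y‖ ^ 2 = ((3 * ∑ i, (x i - y i) ^ 2 -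
      2 * (((x 0 + x 1) - (y 0 + y 1)) ^ 2 - ((x 0 + x 1) - (y 0 + y 1)) * ((x 0 + x 2) - (y 0 + y 2)) +
        ((x 0 + x 2) - (y 0 + y 2)) ^ 2) : ℤ) : ℝ) := by
  rw [EuclideanSpace.norm_sq_eq, Fin.sum_univ_succ]
  have h0 : ‖(pr x - pr y) 0‖ ^ 2 = (((x 0 - x 1 - x 2) - (y 0 - y 1 - y 2) : ℤ) : ℝ) ^ 2 / 22 := by
    have h1 : (pr x - pr y) 0 = (((x 0 - x 1 - x 2) - (y 0 - y 1 - y 2) : ℤ) : ℝ) * (1 / √22) := by
      have : (pr x - pr y) 0 = pr x 0 - pr y 0 := rfl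
      rw [this, pr_zero, pr_zero]
      push_cast
      ring
    rw [h1, Real.norm_eq_abs, sq_abs, mul_pow, div_pow, one_pow, Real.sq_sqrt (by norm_num)]
    ring
  have hk : ∀ k : Fin 21, ‖(pr x - pr y) k.succ‖ ^ 2 =
      3 / 22 * ((x (up k.succ) - y (up k.succ) : ℤ) : ℝ) ^ 2 := by
    intro k
    have h1 : (pr x - pr y) k.succ = ((x (up k.succ) - y (up k.succ) : ℤ) : ℝ) * √(3 / 22) := by
      have : (pr x - pr y) k.succ = pr x k.succ - pr y k.succ := rfl
      rw [this, pr_succ, pr_succ]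
      push_cast
      ring
    rw [h1, Real.norm_eq_abs, sq_abs, mul_pow, Real.sq_sqrt (by norm_num)]
    ring
  rw [h0, Finset.sum_congr rfl fun k _ => hk k, ← Finset.mul_sum, sum24]
  push_cast
  ring

theorem sep22 (x y : Fin 24 → ℤ) (hx : Lft x) (hy : Lft y) (hne : x ≠ y) :
    2 ≤ ‖pr x - pr y‖ := by
  obtain ⟨⟨m, u, hm, hL⟩, s, ha, hb⟩ := hx
  obtain ⟨⟨m', u', hm', hL'⟩, s', ha', hb'⟩ := hy
  have h1 := leech_min x y m m' hm hm' u u' hL hL' hne
  have h2 : (sA s - sA s') ^ 2 - (sA s - sA s') * (sB s - sB s') + (sB s - sB s') ^ 2 ≤ 4 := by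
    revert s s'
    intro s _ _ s' _ _
    fin_cases s <;> fin_cases s' <;> decide
  have h3 := norm_pr x y
  rw [ha, hb, ha', hb'] at h3
  have h4 : (88 : ℤ) ≤ 3 * ∑ i, (x i - y i) ^ 2 -
      2 * ((sA s - sA s') ^ 2 - (sA s - sA s') * (sB s - sB s') + (sB s - sB s') ^ 2) := by
    linarith
  have h5 : (88 : ℝ) ≤ 22 * ‖pr x - pr y‖ ^ 2 := by
    rw [h3]
    exact_mod_cast h4
  have key' : (2 : ℝ) ^ 2 ≤ ‖pr x - pr y‖ ^ 2 := by linarith
  exact (pow_le_pow_iff_left₀ (by norm_num) (norm_nonneg _) two_ne_zero).1 key'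

/-! ### the representatives -/

/-- the index set: value of the pair, parity, 10 information bits, 21 further bits -/
abbrev Idx : Type := Fin 3 × Bool × (Fin 10 → Bool) × (Fin 21 → Bool)

/-- integer value of a bit -/
def tI (b : Bool) : ℤ := if b then 1 else 0

/-- the information bits -/
def inf (p : Idx) : Fin 12 → Bool := fun j =>
  if j = 0 then p.2.2.1 0
  else if j = 1 then (p.2.2.1 0 ^^ (decide (p.1 ≠ 0))) ^^ p.2.1
  else if j = 2 then (p.2.2.1 0 ^^ (decide (p.1 = 2))) ^^ p.2.1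
  else p.2.2.1 ⟨j - 2, by omega⟩

/-- the coordinate `i ≠ 1, 2, 23` of a representative (and a provisional value for `i = 23`) -/
def co (p : Idx) (i : Fin 24) : ℤ := tI p.2.1 + 2 * bi (cw (inf p)) i +
  4 * (if h : (i : ℕ) = 0 then tI (p.2.2.2 0) else
    if h : 3 ≤ (i : ℕ) ∧ (i : ℕ) ≤ 22 then tI (p.2.2.2 ⟨i - 2, by omega⟩) else 0)

/-- provisional representative -/
def re0 (p : Idx) : Fin 24 → ℤ := fun i =>
  if i = 1 then sA p.1 - co p 0 else if i = 2 then sB p.1 - co p 0 else co p i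

/-- the representative -/
def re (p : Idx) : Fin 24 → ℤ := fun i =>
  re0 p i + if i = 23 then (if (∑ i, re0 p i - 4 * tI p.2.1) % 8 = 0 then 0 else 4) else 0

theorem tI_01 (b : Bool) : tI b = 0 ∨ tI b = 1 := by
  cases b
  · exact Or.inl rfl
  · exact Or.inr rfl

theorem tI_inj {a b : Bool} (h : tI a = tI b) : a = b := by
  cases a <;> cases b <;> simp [tI] at h ⊢

theorem bi_cw (u : Fin 12 → Bool) (j : Fin 12) :
    bi (cw u) ⟨j, by omega⟩ = tI (u j) := by
  unfold bi tI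
  rw [cw_sys]

theorem co_form (p : Idx) (i : Fin 24) : ∃ c : ℤ, (c = 0 ∨ c = 1) ∧
    co p i = tI p.2.1 + 2 * bi (cw (inf p)) i + 4 * c := by
  unfold co
  split_ifs
  · exact ⟨_, tI_01 _, rfl⟩
  · exact ⟨_, tI_01 _, rfl⟩
  · exact ⟨0, Or.inl rfl, rfl⟩

theorem re0_mod (p : Idx) (i : Fin 24) :
    (re0 p i - tI p.2.1 - 2 * bi (cw (inf p)) i) % 4 = 0 := by
  obtain ⟨c, -, hc⟩ := co_form p i
  obtain ⟨c0, -, hc0⟩ := co_form p 0
  have hb0 : bi (cw (inf p)) 0 = tI (p.2.2.1 0) := by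
    have h := bi_cw (inf p) 0
    exact h
  unfold re0
  split_ifs with h1 h2
  · subst h1
    have hb1 : bi (cw (inf p)) 1 = tI ((p.2.2.1 0 ^^ (decide (p.1 ≠ 0))) ^^ p.2.1) := by
      have h := bi_cw (inf p) 1
      exact h
    rw [hc0, hb1, hb0]
    obtain ⟨s, m, u, e⟩ := p
    simp only
    generalize u 0 = x
    fin_cases s <;> cases m <;> cases x <;> simp [tI, sA] <;> omega
  · subst h2
    have hb2 : bi (cw (inf p)) 2 = tI ((p.2.2.1 0 ^^ (decide (p.1 = 2))) ^^ p.2.1) := by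
      have h := bi_cw (inf p) 2
      exact h
    rw [hc0, hb2, hb0]
    obtain ⟨s, m, u, e⟩ := p
    simp only
    generalize u 0 = x
    fin_cases s <;> cases m <;> cases x <;> simp [tI, sB] <;> omega
  · rw [hc]
    omega

theorem re_sum (p : Idx) : (∑ i, re p i - 4 * tI p.2.1) % 8 = 0 := by
  have h1 : (4 : ℤ) ∣ ∑ i, (re0 p i - tI p.2.1 - 2 * bi (cw (inf p)) i) :=
    Finset.dvd_sum fun i _ => Int.dvd_of_emod_eq_zero (re0_mod p i)
  rw [Finset.sum_sub_distrib, Finset.sum_sub_distrib, ← Finset.mul_sum, sum_bi, Finset.sum_const,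
    Finset.card_univ, Fintype.card_fin, nsmul_eq_mul] at h1
  have h2 := (cw_wt (inf p)).1
  have h3 : ∑ i, re p i = ∑ i, re0 p i +
      (if (∑ i, re0 p i - 4 * tI p.2.1) % 8 = 0 then 0 else 4) := by
    unfold re
    rw [Finset.sum_add_distrib, Finset.sum_ite_eq' Finset.univ (23 : Fin 24)]
    simp
  rw [h3]
  push_cast at h1
  split_ifs with h4 <;> omega

theorem re_mod (p : Idx) (i : Fin 24) :
    (re p i - tI p.2.1 - 2 * bi (cw (inf p)) i) % 4 = 0 := by
  have h1 := re0_mod p i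
  unfold re
  split_ifs <;> omega

/-- the shifts -/
def sh (z : Fin 22 → ℤ) : Fin 24 → ℤ := fun i =>
  if (i : ℕ) = 0 then 8 * z 0 else if (i : ℕ) ≤ 2 then -8 * z 0 else 8 * z ⟨i - 2, by omega⟩

theorem sh_mod (z : Fin 22 → ℤ) (i : Fin 24) : (8 : ℤ) ∣ sh z i := by
  unfold sh
  split_ifs
  · exact ⟨_, rfl⟩
  · exact ⟨-z 0, by ring⟩
  · exact ⟨_, rfl⟩

theorem sh_up (z : Fin 22 → ℤ) (k : Fin 21) : sh z (up k.succ) = 8 * z k.succ := by
  unfold sh up
  rw [if_neg (by simp), if_neg (by simp)]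
  rfl

theorem isL_re (p : Idx) (z : Fin 22 → ℤ) :
    IsL (fun i => re p i + sh z i) (tI p.2.1) (inf p) := by
  refine ⟨fun i => ?_, ?_⟩
  · have h1 := re_mod p i
    obtain ⟨c, hc⟩ := sh_mod z i
    show (re p i + sh z i - tI p.2.1 - 2 * bi (cw (inf p)) i) % 4 = 0
    rw [hc]
    omega
  · have h1 := re_sum p
    have h2 : (8 : ℤ) ∣ ∑ i, sh z i := Finset.dvd_sum fun i _ => sh_mod z i
    rw [Finset.sum_add_distrib]
    omega

theorem re_0 (p : Idx) : re p 0 = co p 0 := by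
  unfold re re0
  simp

theorem re_1 (p : Idx) : re p 1 = sA p.1 - co p 0 := by
  unfold re re0
  simp

theorem re_2 (p : Idx) : re p 2 = sB p.1 - co p 0 := by
  unfold re re0
  simp

theorem sh_0 (z : Fin 22 → ℤ) : sh z 0 = 8 * z 0 := rfl

theorem sh_1 (z : Fin 22 → ℤ) : sh z 1 = -8 * z 0 := rfl

theorem sh_2 (z : Fin 22 → ℤ) : sh z 2 = -8 * z 0 := rfl

theorem lft_re (p : Idx) (z : Fin 22 → ℤ) : Lft fun i => re p i + sh z i := by
  refine ⟨⟨_, _, tI_01 _, isL_re p z⟩, p.1, ?_, ?_⟩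
  · simp only
    rw [re_0, re_1, sh_0, sh_1]
    ring
  · simp only
    rw [re_0, re_2, sh_0, sh_2]
    ring

/-- the periods -/
def l22 : Fin 22 → ℝ := fun k => if k = 0 then 24 * (1 / √22) else 8 * √(3 / 22)

theorem l22_pos (k : Fin 22) : 0 < l22 k := by
  unfold l22
  split_ifs <;> positivity

theorem pr_re (p : Idx) (z : Fin 22 → ℤ) :
    pr (fun i => re p i + sh z i) = pr (re p) + bl l22 z := by
  ext k
  refine Fin.cases ?_ (fun k => ?_) k
  · have h1 : (pr (re p) + bl l22 z) 0 = pr (re p) 0 + (z 0 : ℝ) * (24 * (1 / √22)) := rfl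
    rw [h1, pr_zero, pr_zero, sh_0, sh_1, sh_2]
    push_cast
    ring
  · have h1 : (pr (re p) + bl l22 z) k.succ = pr (re p) k.succ + (z k.succ : ℝ) * (8 * √(3 / 22)) := by
      have : (pr (re p) + bl l22 z) k.succ = pr (re p) k.succ + (z k.succ : ℝ) * l22 k.succ := rfl
      rw [this, l22, if_neg (Fin.succ_ne_zero k)]
    rw [h1, pr_succ, pr_succ, sh_up]
    push_cast
    ring

theorem four_eq {a b c z a' b' c' z' : ℤ} (ha : a = 0 ∨ a = 1) (hb : b = 0 ∨ b = 1)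
    (hc : c = 0 ∨ c = 1) (ha' : a' = 0 ∨ a' = 1) (hb' : b' = 0 ∨ b' = 1) (hc' : c' = 0 ∨ c' = 1)
    (h : a + 2 * b + 4 * c + 8 * z = a' + 2 * b' + 4 * c' + 8 * z') :
    a = a' ∧ b = b' ∧ c = c' ∧ z = z' := by
  omega

theorem re_up (p : Idx) (k : Fin 20) :
    re p (up k.castSucc.succ) = tI p.2.1 + 2 * bi (cw (inf p)) (up k.castSucc.succ) +
      4 * tI (p.2.2.2 k.succ) := by
  have hv : ((up k.castSucc.succ : Fin 24) : ℕ) = (k : ℕ) + 3 := by
    simp [up]
  have h1 : (up k.castSucc.succ : Fin 24) ≠ 1 := by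
    intro h
    have := congrArg Fin.val h
    rw [hv] at this
    simp at this
  have h2 : (up k.castSucc.succ : Fin 24) ≠ 2 := by
    intro h
    have := congrArg Fin.val h
    rw [hv] at this
    simp at this
  have h3 : (up k.castSucc.succ : Fin 24) ≠ 23 := by
    intro h
    have := congrArg Fin.val h
    rw [hv] at this
    have hk := k.2
    simp at this
    omega
  have h4 : ¬ ((up k.castSucc.succ : Fin 24) : ℕ) = 0 := by omega
  have h5 : 3 ≤ ((up k.castSucc.succ : Fin 24) : ℕ) ∧ ((up k.castSucc.succ : Fin 24) : ℕ) ≤ 22 := by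
    have hk := k.2
    omega
  unfold re re0
  rw [if_neg h3, if_neg h1, if_neg h2, co, dif_neg h4, dif_pos h5, add_zero]
  congr 3

theorem re_last (p : Idx) : ∃ c : ℤ, (c = 0 ∨ c = 1) ∧
    re p (up (Fin.last 20).succ) = tI p.2.1 + 2 * bi (cw (inf p)) (up (Fin.last 20).succ) + 4 * c := by
  have h0 : up (Fin.last 20).succ = 23 := rfl
  rw [h0]
  have h1 : co p 23 = tI p.2.1 + 2 * bi (cw (inf p)) 23 := by
    unfold co
    simp
  have h2 : re p 23 = co p 23 + (if (∑ i, re0 p i - 4 * tI p.2.1) % 8 = 0 then 0 else 4) := by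
    unfold re
    rw [if_pos rfl]
    congr 1
  rw [h2, h1]
  split_ifs
  · exact ⟨0, Or.inl rfl, by ring⟩
  · exact ⟨1, Or.inr rfl, by ring⟩

theorem co_0 (p : Idx) : co p 0 = tI p.2.1 + 2 * tI (p.2.2.1 0) + 4 * tI (p.2.2.2 0) := by
  have hb0 : bi (cw (inf p)) 0 = tI (p.2.2.1 0) := bi_cw (inf p) 0
  rw [co, hb0]
  rfl

theorem lift_inj (p q : Idx) (z w : Fin 22 → ℤ)
    (h : (fun i => re p i + sh z i) = fun i => re q i + sh w i) : p = q ∧ z = w := by
  have h0 : re p 0 + sh z 0 = re q 0 + sh w 0 := congrFun h 0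
  have h1 : re p 1 + sh z 1 = re q 1 + sh w 1 := congrFun h 1
  have h2 : re p 2 + sh z 2 = re q 2 + sh w 2 := congrFun h 2
  rw [re_0, re_0, sh_0, sh_0] at h0
  rw [re_1, re_1, sh_1, sh_1] at h1
  rw [re_2, re_2, sh_2, sh_2] at h2
  have hs : p.1 = q.1 := by
    have h3 : sA p.1 = sA q.1 := by linarith
    have h4 : sB p.1 = sB q.1 := by linarith
    revert h3 h4
    generalize p.1 = s
    generalize q.1 = t
    fin_cases s <;> fin_cases t <;> simp [sA, sB]
  rw [co_0, co_0] at h0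
  obtain ⟨hm, hu0, he0, hz0⟩ := four_eq (tI_01 _) (tI_01 _) (tI_01 _) (tI_01 _) (tI_01 _) (tI_01 _) h0
  have hk : ∀ k : Fin 20, bi (cw (inf p)) (up k.castSucc.succ) = bi (cw (inf q)) (up k.castSucc.succ) ∧
      p.2.2.2 k.succ = q.2.2.2 k.succ ∧ z k.castSucc.succ = w k.castSucc.succ := by
    intro k
    have h3 : re p (up k.castSucc.succ) + sh z (up k.castSucc.succ) =
      re q (up k.castSucc.succ) + sh w (up k.castSucc.succ) := congrFun h (up k.castSucc.succ)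
    rw [re_up, re_up, sh_up, sh_up] at h3
    obtain ⟨-, h4, h5, h6⟩ := four_eq (tI_01 _) (bi_01 _ _) (tI_01 _) (tI_01 _) (bi_01 _ _) (tI_01 _) h3
    exact ⟨h4, tI_inj h5, h6⟩
  have hl : z (Fin.last 20).succ = w (Fin.last 20).succ := by
    have h3 : re p (up (Fin.last 20).succ) + sh z (up (Fin.last 20).succ) =
      re q (up (Fin.last 20).succ) + sh w (up (Fin.last 20).succ) :=
      congrFun h (up (Fin.last 20).succ)
    obtain ⟨c, hc, hc'⟩ := re_last p
    obtain ⟨d, hd, hd'⟩ := re_last q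
    rw [hc', hd', sh_up, sh_up] at h3
    exact (four_eq (tI_01 _) (bi_01 _ _) hc (tI_01 _) (bi_01 _ _) hd h3).2.2.2
  have hzw : z = w := by
    funext i
    refine Fin.cases hz0 (fun k => ?_) i
    refine Fin.lastCases hl (fun k => (hk k).2.2) k
  have he : p.2.2.2 = q.2.2.2 := by
    funext i
    exact Fin.cases (tI_inj he0) (fun k => (hk k).2.1) i
  have hu : p.2.2.1 = q.2.2.1 := by
    funext i
    refine Fin.cases (tI_inj hu0) (fun k => ?_) i
    -- k : Fin 9, information bit k + 3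
    have hk3 : (k : ℕ) < 20 := by have := k.2; omega
    have h3 := (hk ⟨k, hk3⟩).1
    have h4 : ∀ r : Idx, bi (cw (inf r)) (up (Fin.castSucc ⟨k, hk3⟩ : Fin 21).succ) =
        tI (r.2.2.1 k.succ) := by
      intro r
      have hk12 : (k : ℕ) + 3 < 12 := by have := k.2; omega
      have h5 := bi_cw (inf r) ⟨k + 3, hk12⟩
      have h6 : (⟨((⟨k + 3, hk12⟩ : Fin 12) : ℕ), by omega⟩ : Fin 24) =
          up (Fin.castSucc ⟨k, hk3⟩ : Fin 21).succ := by
        ext
        simp [up]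
      rw [h6] at h5
      rw [h5]
      congr 1
    rw [h4, h4] at h3
    exact tI_inj h3
  refine ⟨?_, hzw⟩
  obtain ⟨s, m, u, e⟩ := p
  obtain ⟨s', m', u', e'⟩ := q
  have hs' : s = s' := hs
  have hm' : m = m' := tI_inj hm
  have hu' : u = u' := hu
  have he' : e = e' := he
  rw [hs', hm', hu', he']

/-- the centres of P22 -/
def X22 : Set (V 22) := {v | ∃ x, Lft x ∧ v = pr x}

theorem card_idx_nat : Fintype.card Idx = 3 * (2 * (2 ^ 10 * 2 ^ 21)) := by
  rw [Fintype.card_prod, Fintype.card_prod, Fintype.card_prod, Fintype.card_fun, Fintype.card_fun,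
    Fintype.card_bool, Fintype.card_fin, Fintype.card_fin, Fintype.card_fin]

theorem card_idx : (Fintype.card Idx : ℝ) = 3 * (2 * (2 ^ 10 * 2 ^ 21)) := by
  rw [card_idx_nat]
  push_cast
  ring

theorem prod_l22 : ∏ k, l22 k = 24 * 8 ^ 21 * (3 / 22) ^ 10 * √3 / 22 := by
  rw [Fin.prod_univ_succ]
  have h1 : ∀ k : Fin 21, l22 k.succ = 8 * √(3 / 22) := fun k => by
    rw [l22, if_neg (Fin.succ_ne_zero k)]
  rw [Finset.prod_congr rfl fun k _ => h1 k, Finset.prod_const, Finset.card_univ, Fintype.card_fin]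
  have h2 : l22 0 = 24 * (1 / √22) := rfl
  have h3 : √(3 / 22) ^ 21 = (3 / 22) ^ 10 * (√3 / √22) := by
    have h4 : √(3 / 22) ^ 2 = 3 / 22 := Real.sq_sqrt (by norm_num)
    have h5 : √(3 / 22) = √3 / √22 := by rw [Real.sqrt_div (by norm_num)]
    calc √(3 / 22) ^ 21 = (√(3 / 22) ^ 2) ^ 10 * √(3 / 22) := by ring
      _ = _ := by rw [h4, h5]
  have h6 : √(22 : ℝ) * √22 = 22 := Real.mul_self_sqrt (by norm_num)
  have h7 : √(22 : ℝ) ≠ 0 := by positivity
  rw [h2, mul_pow, h3]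
  calc 24 * (1 / √22) * (8 ^ 21 * ((3 / 22) ^ 10 * (√3 / √22)))
      = 24 * 8 ^ 21 * (3 / 22) ^ 10 * √3 / (√22 * √22) := by
        field_simp
    _ = _ := by rw [h6]

/-- the centre density of P22 -/
def d22 : ℝ := 11 ^ 11 / (2 ^ 23 * 3 ^ 10 * √3)

theorem dens22 : (Fintype.card Idx : ℝ) / ∏ k, l22 k = d22 := by
  rw [card_idx, prod_l22, d22]
  have h3 : √(3 : ℝ) ≠ 0 := by positivity
  field_simp
  norm_num

/-- the lower bound for `n = 22`: a packing with centre density `11^11 / (2^23 3^10 √3) = .33254..` -/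
theorem low22 : ∃ X : Set (V 22), X.Pairwise (fun x y => 2 ≤ dist x y) ∧
    ENNReal.ofReal d22 * volume (Metric.ball (0 : V 22) 1) ≤
      Filter.limsup (fun R : ℝ =>
        volume ((⋃ x ∈ X, Metric.ball x 1) ∩ Metric.ball (0 : V 22) R) /
          volume (Metric.ball (0 : V 22) R)) atTop := by
  have hX : X22.Pairwise (fun x y => 2 ≤ dist x y) := by
    rintro _ ⟨x, hx, rfl⟩ _ ⟨y, hy, rfl⟩ hne
    rw [dist_eq_norm]
    exact sep22 x y hx hy fun e => hne (by rw [e])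
  refine ⟨X22, hX, ?_⟩
  have h := dens (n := 22) (ι := Idx) (by norm_num) l22 l22_pos (fun p => pr (re p)) X22 hX
    (fun p z => ⟨_, lft_re p z, (pr_re p z).symm⟩)
    (by
      intro p q z w he
      refine lift_inj p q z w ?_
      by_contra hne
      have h1 := sep22 _ _ (lft_re p z) (lft_re q w) hne
      rw [pr_re, pr_re, he, sub_self, norm_zero] at h1
      norm_num at h1)
  rw [dens22] at h
  exact h

/-- the supremum of S08123 over all packings of `ℝ^22` is at least the density of P22 -/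
theorem low22_sup : ENNReal.ofReal d22 * volume (Metric.ball (0 : V 22) 1) ≤
    ⨆ (X : Set (V 22)) (_ : X.Pairwise (fun x y => 2 ≤ dist x y)),
          Filter.limsup (fun R : ℝ =>
            volume ((⋃ x ∈ X, Metric.ball x 1) ∩ Metric.ball (0 : V 22) R) /
              volume (Metric.ball (0 : V 22) R)) atTop := by
  obtain ⟨X, h1, h2⟩ := low22
  exact h2.trans (le_iSup₂_of_le X h1 le_rfl)

end Pool.Agent.H14LOW
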